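import Pool.Agent.H.MP_14d743_an.B

namespace Pool.Agent.Results.MP_14d743_an.Yes

open Filter Topology Set Pool.Agent.H.MP_14d743_an

universe u

theorem result {X : Type u} [NormedAddCommGroup X] [NormedSpace ℂ X] [CompleteSpace X]
    (hX : Function.Surjective (NormedSpace.inclusionInDoubleDual ℂ X)) (T : X →L[ℂ] X)
    (hb : ¬ BddAbove (range fun n : ℕ => ‖T ^ n‖))
    (he : ∀ (c : ℂ) (x : X), T x = c • x → x = 0) :
    ∃ (x : X) (f : X →L[ℂ] ℂ), DenseRange fun n : ℕ => f ((T ^ n) x) := by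
  by_contra hc
  push Not at hc
  set a : ℕ → ℝ := fun n => ‖T ^ n‖
  have hs : ∀ m n, a (m + n) ≤ a m * a n := fun m n => by
    simp only [a, pow_add]; exact norm_mul_le _ _
  have hu : ∀ M, ∃ n, M < a n := fun M => by
    obtain ⟨_, ⟨n, rfl⟩, h⟩ := not_bddAbove_iff.1 hb M
    exact ⟨n, h⟩
  have h1 : ∀ k, 1 ≤ a k := fun k => by
    by_contra c
    rw [not_le] at c
    obtain ⟨n, hn⟩ := hu (∑ i ∈ Finset.range k, a i)
    refine absurd hn (not_lt.2 ?_)
    clear hn
    induction n using Nat.strong_induction_on with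
    | _ n ih =>
      by_cases h : n < k
      · exact Finset.single_le_sum (f := a) (fun _ _ => norm_nonneg _) (Finset.mem_range.2 h)
      · have := hs k (n - k)
        rw [show k + (n - k) = n by omega] at this
        have n0 : 0 ≤ a n := norm_nonneg _
        rcases Nat.eq_zero_or_pos k with rfl | hk
        · simp only [Nat.sub_zero] at this
          simp only [Finset.range_zero, Finset.sum_empty]
          nlinarith
        · have := ih (n - k) (by omega)
          have n1 : 0 ≤ a (n - k) := norm_nonneg _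
          nlinarith
  obtain ⟨ρ, hρ, hw⟩ := weights a h1 hs hu
  have ρ0 : 0 < ρ := one_pos.trans_le hρ
  obtain ⟨x₀, f₀, δ, C, hδ, hC, hB⟩ := baire (fun n => T ^ n) hc
  replace hB := hB x₀ (by simpa using hδ)
  set S : X →L[ℂ] X := ((ρ⁻¹ : ℝ) : ℂ) • T
  have hS : ∀ n x, (S ^ n) x = (((ρ ^ n)⁻¹ : ℝ) : ℂ) • (T ^ n) x := fun n x => by
    rw [smul_pow, smul_apply, ← Complex.ofReal_pow, inv_pow]
  have nc : ∀ t : ℝ, 0 ≤ t → ‖(t : ℂ)‖ = t := fun t ht => by
    rw [Complex.norm_real, Real.norm_of_nonneg ht]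
  choose N N1 N2 N3 using fun k : ℕ => hw (1 / ((k : ℝ) + 1)) (by positivity)
  set w : ℕ → ℝ := fun n => (a n / ρ ^ n) ^ 2
  set W : ℕ → ℝ := fun k => ∑ n ∈ Finset.range (N k), w n
  have a0 : ∀ n, 0 < a n := fun n => one_pos.trans_le (h1 n)
  have W0 : ∀ k, 0 < W k := fun k => Finset.sum_pos (fun n _ => by have := a0 n; positivity)
    ⟨0, Finset.mem_range.2 (N1 k)⟩
  obtain ⟨H, _, _, _, J, F, hF, F1, hd, hcp, hJ⟩ := exists_J hX
    (fun n => (((a n)⁻¹ : ℝ) : ℂ) • (T ^ n) x₀) ‖x₀‖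
    (fun n => by
      rw [norm_smul, nc _ (inv_nonneg.2 (a0 n).le), inv_mul_le_iff₀ (a0 n)]
      exact (T ^ n).le_opNorm x₀)
    (fun k n => w n / W k) N (fun k n => div_nonneg (by positivity) (W0 k).le)
    fun k => by rw [← Finset.sum_div, div_self (W0 k).ne']
  replace hJ : ∀ f, Tendsto (fun k => (∑ n ∈ Finset.range (N k), ‖f ((S ^ n) x₀)‖ ^ 2) / W k) F
      (𝓝 (‖J f‖ ^ 2)) := fun f => (hJ f).congr fun k => by
    rw [Finset.sum_div]
    refine Finset.sum_congr rfl fun n _ => ?_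
    have := a0 n
    rw [hS, map_smul, map_smul, norm_smul, norm_smul, nc _ (by positivity), nc _ (by positivity)]
    simp only [w]
    field_simp
  have t0 : Tendsto (fun k : ℕ => 1 / ((k : ℝ) + 1)) F (𝓝 0) :=
    tendsto_one_div_add_atTop_nhds_zero_nat.mono_left F1
  have hi : ∀ f, ‖J (f ∘L S)‖ = ‖J f‖ := fun f => by
    have b : ∀ n, ‖f ((S ^ n) x₀)‖ ^ 2 ≤ (‖f‖ * ‖x₀‖) ^ 2 * w n := fun n => by
      have := a0 n
      rw [hS, map_smul, norm_smul, nc _ (by positivity), ← mul_pow]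
      refine pow_le_pow_left₀ (by positivity) ?_ 2
      rw [inv_mul_le_iff₀ (by positivity)]
      refine (f.le_opNorm_of_le ((T ^ n).le_opNorm x₀)).trans (le_of_eq ?_)
      simp only [a]
      field_simp
    have t := (hJ (f ∘L S)).sub (hJ f)
    have t2 := t0.const_mul (2 * (‖f‖ * ‖x₀‖) ^ 2)
    rw [mul_zero] at t2
    have := tendsto_nhds_unique t (squeeze_zero_norm (fun k => ?_) t2)
    · exact (pow_left_inj₀ (norm_nonneg _) (norm_nonneg _) two_ne_zero).1 (sub_eq_zero.1 this)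
    · have e : ∀ n, (f ∘L S) ((S ^ n) x₀) = f ((S ^ (n + 1)) x₀) := fun n => by
        rw [pow_succ']; rfl
      simp only [e]
      rw [← sub_div, ← Finset.sum_sub_distrib,
        Finset.sum_range_sub (fun n => ‖f ((S ^ n) x₀)‖ ^ 2), norm_div,
        Real.norm_of_nonneg (W0 k).le, div_le_iff₀ (W0 k)]
      refine (norm_sub_le _ _).trans ?_
      rw [Real.norm_of_nonneg (by positivity), Real.norm_of_nonneg (by positivity)]
      have b1 := (b (N k)).trans (mul_le_mul_of_nonneg_left (N2 k) (by positivity))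
      have b2 : ‖f ((S ^ 0) x₀)‖ ^ 2 ≤ (‖f‖ * ‖x₀‖) ^ 2 * (1 / ((k : ℝ) + 1) * W k) := by
        have c1 := (Finset.single_le_sum (f := fun n => (1 / ρ ^ n) ^ 2)
          (fun _ _ => by positivity) (Finset.mem_range.2 (N1 k))).trans (N3 k)
        simp only [pow_zero, div_one, one_pow] at c1
        refine le_trans ?_ (le_mul_of_one_le_right (by positivity) c1)
        gcongr
        exact f.le_opNorm x₀
      linarith
  have h0 : J f₀ ≠ 0 := by
    intro z
    have := ge_of_tendsto' (b := 1 / (2 * C ^ 2)) ((hJ f₀).add t0) fun k => by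
      have b : ∀ n, w n ≤ 2 * C ^ 2 * (‖f₀ ((S ^ n) x₀)‖ ^ 2 + (1 / ρ ^ n) ^ 2) := fun n => by
        have c1 : a n ^ 2 ≤ (C * (‖f₀ ((T ^ n) x₀)‖ + 1)) ^ 2 :=
          pow_le_pow_left₀ (a0 n).le (hB n) 2
        rw [hS, map_smul, norm_smul, nc _ (by positivity)]
        simp only [w]
        field_simp
        nlinarith [sq_nonneg (C * (‖f₀ ((T ^ n) x₀)‖ - 1))]
      have b1 := Finset.sum_le_sum fun n (_ : n ∈ Finset.range (N k)) => b n
      rw [← Finset.mul_sum, Finset.sum_add_distrib] at b1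
      have b2 := N3 k
      have := W0 k
      rw [div_le_iff₀' (by positivity), div_add' _ _ _ this.ne', mul_div_assoc',
        le_div_iff₀ this, one_mul]
      exact b1.trans (by gcongr)
    rw [z] at this
    simp only [norm_zero, ne_eq, OfNat.ofNat_ne_zero, not_false_eq_true, zero_pow,
      add_zero] at this
    exact absurd this (not_le.2 (by positivity))
  let Y₀ : Submodule ℂ X :=
    { carrier := {y | ∃ C, ∀ n, ‖(S ^ n) y‖ ≤ C}
      add_mem' := fun ⟨C, h⟩ ⟨D, g⟩ => ⟨C + D, fun n => by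
        rw [map_add]; exact (norm_add_le _ _).trans (add_le_add (h n) (g n))⟩
      zero_mem' := ⟨0, fun n => by simp⟩
      smul_mem' := fun c _ ⟨C, h⟩ => ⟨‖c‖ * C, fun n => by
        rw [map_smul, norm_smul]; gcongr; exact h n⟩ }
  set Y := Y₀.topologicalClosure
  obtain ⟨y₀, g₀, η, D, hη, hD, hY⟩ := baire (fun n => (T ^ n) ∘L Y.subtypeL)
    fun y f => hc y f
  obtain ⟨y, ⟨M, hM⟩, hy⟩ := Metric.mem_closure_iff.1 (show y₀.1 ∈ closure (Y₀ : Set X) from y₀.2)
    η hη
  replace hY := hY ⟨y, Y₀.le_topologicalClosure ⟨M, hM⟩⟩ (by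
    rw [dist_comm, dist_eq_norm] at hy; exact hy)
  obtain ⟨c, x, hx, hx2⟩ := eigen2 hX S J hd hcp hi f₀ h0 Y
    (fun y h => Y₀.le_topologicalClosure h) (D * (‖g₀‖ * M + 1)) fun n => by
      have e : (S ^ n) ∘L Y.subtypeL = (((ρ ^ n)⁻¹ : ℝ) : ℂ) • ((T ^ n) ∘L Y.subtypeL) := by
        ext z; exact hS n z
      have b1 := hM n
      rw [hS, norm_smul, nc _ (by positivity), inv_mul_le_iff₀ (by positivity)] at b1
      have b2 : ‖g₀ ((T ^ n) y)‖ ≤ ‖g₀‖ * (ρ ^ n * M) := g₀.le_opNorm_of_le b1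
      have b3 : 1 ≤ ρ ^ n := one_le_pow₀ hρ
      rw [e]
      refine (ContinuousLinearMap.opNorm_smul_le _ _).trans ?_
      rw [nc _ (by positivity), inv_mul_le_iff₀ (by positivity)]
      refine (hY n).trans ?_
      change D * (‖g₀ ((T ^ n) y)‖ + 1) ≤ _
      rw [mul_left_comm]
      gcongr
      nlinarith
  refine hx (he ((ρ : ℂ) * c) x ?_)
  rw [mul_smul, ← hx2, smul_apply, smul_smul, ← Complex.ofReal_mul, mul_inv_cancel₀ ρ0.ne',
    Complex.ofReal_one, one_smul]

end Pool.Agent.Results.MP_14d743_an.Yes
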